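import Pool.Agent.H47.VT.Targets6

/-!
T_LO: lower bound for all characters.
-/

set_option autoImplicit false

open Complex

namespace Pool.Agent.H20.VT.LO

open Pool.Agent.H47.VT
open Pool.Agent.H30.BV (cv DS)

theorem pf_LO (hSG : T_SG) (hC4 : Pool.Agent.H30.BV.T_C4) (hDV : Pool.Agent.H30.BV.T_DV)
    (hCB : Pool.Agent.H30.BV.T_CB) : T_LO := by
  intro ε hε
  obtain ⟨c₁', hc₁', h1'⟩ := hSG (ε / 2) (by linarith)
  obtain ⟨c₄', hc₄', h4'⟩ := hC4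
  obtain ⟨C', hC', hD'⟩ := hDV
  obtain ⟨c₁, hc₁, hc₁1, h1⟩ : ∃ c : ℝ, 0 < c ∧ c ≤ 1 ∧ ∀ (q : ℕ) (χ : DirichletCharacter ℂ q)
      (x : ℝ), 1 ≤ q → χ ≠ 1 → χ ^ 2 = 1 → 0 < x → x ≤ 1 →
      c * (q : ℝ) ^ (-(ε / 2)) ≤ ‖DS (cv χ) 0 (1 + x)‖ := by
    refine ⟨min c₁' 1, lt_min hc₁' one_pos, min_le_right _ _, fun q χ x hq hχ hχ2 hx hx1 => ?_⟩
    refine le_trans ?_ (h1' q χ x hq hχ hχ2 hx hx1)
    exact mul_le_mul_of_nonneg_right (min_le_left _ _) (Real.rpow_nonneg (Nat.cast_nonneg _) _)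
  obtain ⟨c₄, hc₄, hc₄1, h4⟩ : ∃ c : ℝ, 0 < c ∧ c ≤ 1 ∧ ∀ (q : ℕ) (χ : DirichletCharacter ℂ q)
      (η : ℝ) (s : ℂ), 1 ≤ q → χ ≠ 1 → 0 < η → η ≤ 1 → 1 < s.re → s.re ≤ 2 →
      (χ ^ 2 ≠ 1 ∨ η ≤ |s.im|) →
      c * η / Real.log (q * (|s.im| + 3)) ^ 9 ≤ ‖DS (cv χ) 0 s‖ := by
    refine ⟨min c₄' 1, lt_min hc₄' one_pos, min_le_right _ _,
      fun q χ η s hq hχ hη hη1 hs hs2 h => ?_⟩
    refine le_trans ?_ (h4' q χ η s hq hχ hη hη1 hs hs2 h)
    have hq1 : (1 : ℝ) ≤ q := by exact_mod_cast hq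
    have hl : 0 ≤ Real.log (q * (|s.im| + 3)) := by
      refine Real.log_nonneg ?_
      have := abs_nonneg s.im
      nlinarith
    refine div_le_div_of_nonneg_right ?_ (by positivity)
    exact mul_le_mul_of_nonneg_right (min_le_left _ _) hη.le
  obtain ⟨C, hC, hD⟩ : ∃ C : ℝ, 1 ≤ C ∧ ∀ (f : ℕ → ℂ) (B T : ℝ) (s₁ s₂ : ℂ), 1 ≤ B → 0 ≤ T →
      (∀ n, ‖f n‖ ≤ 1) → (∀ M, ‖∑ n ∈ Finset.range M, f n‖ ≤ B) → 1 < s₁.re → s₁.re ≤ 3 →
      1 < s₂.re → s₂.re ≤ 3 → |s₁.im| ≤ T → |s₂.im| ≤ T →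
      ‖DS f 0 s₁ - DS f 0 s₂‖ ≤ C * Real.log (B * (T + 3)) ^ 2 * ‖s₁ - s₂‖ := by
    refine ⟨max C' 1, le_max_right _ _, fun f B T s₁ s₂ a1 a2 a3 a4 a5 a6 a7 a8 a9 a10 => ?_⟩
    refine (hD' f B T s₁ s₂ a1 a2 a3 a4 a5 a6 a7 a8 a9 a10).trans ?_
    exact mul_le_mul_of_nonneg_right (mul_le_mul_of_nonneg_right (le_max_left _ _)
      (sq_nonneg _)) (norm_nonneg _)
  have hC0 : 0 < C := by linarith
  refine ⟨11, c₄ * c₁ / (8 * C), by positivity, ?_, fun q χ s hq hχ hs hs2 => ?_⟩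
  · rw [div_le_one (by positivity)]
    calc c₄ * c₁ ≤ 1 * 1 := mul_le_mul hc₄1 hc₁1 hc₁.le zero_le_one
      _ ≤ 8 * C := by linarith
  have hq1 : (1 : ℝ) ≤ q := by exact_mod_cast hq
  have hq0 : (0 : ℝ) < q := by linarith
  have hat : 0 ≤ |s.im| := abs_nonneg _
  set L : ℝ := Real.log (q * (|s.im| + 3)) with hL
  have hlog3 : 1 ≤ Real.log 3 := by
    rw [Real.le_log_iff_exp_le (by norm_num)]
    have := Real.exp_one_lt_d9
    linarith
  have hL3 : Real.log (3 * q) ≤ L := by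
    rw [hL]
    refine Real.log_le_log (by positivity) ?_
    nlinarith
  have hL1 : 1 ≤ L := by
    refine le_trans (hlog3.trans ?_) hL3
    exact Real.log_le_log (by norm_num) (by linarith)
  have hL0 : 0 < L := by linarith
  set M : ℝ := Real.log (q * (1 + 3)) with hM
  have hM1 : 1 ≤ M := by
    rw [hM]
    refine hlog3.trans (Real.log_le_log (by norm_num) (by linarith))
  have hM0 : 0 < M := by linarith
  have hML : M ≤ 2 * L := by
    have h2 : M ≤ 2 * Real.log (3 * q) := by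
      rw [hM, show (2 : ℝ) * Real.log (3 * q) = Real.log ((3 * q) ^ 2) by
        rw [Real.log_pow]; norm_num]
      refine Real.log_le_log (by positivity) ?_
      nlinarith
    linarith
  have hM2 : M ^ 2 ≤ 4 * L ^ 2 := by
    calc M ^ 2 ≤ (2 * L) ^ 2 := pow_le_pow_left₀ hM0.le hML 2
      _ = 4 * L ^ 2 := by ring
  set Q : ℝ := (q : ℝ) ^ (-(ε / 2)) with hQ
  have hQ0 : 0 < Q := Real.rpow_pos_of_pos hq0 _
  have hQ1 : Q ≤ 1 := Real.rpow_le_one_of_one_le_of_nonpos hq1 (by linarith)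
  have hqe : (q : ℝ) ^ ε = Q⁻¹ * Q⁻¹ := by
    rw [hQ, ← Real.rpow_neg hq0.le, neg_neg, ← Real.rpow_add hq0]
    congr 1
    ring
  have hfin : ∀ y : ℝ, c₄ * c₁ / (8 * C) * Q / L ^ 11 ≤ y →
      c₄ * c₁ / (8 * C) / ((q : ℝ) ^ ε * L ^ 11) ≤ y := by
    intro y hy
    refine le_trans ?_ hy
    rw [hqe]
    rw [show c₄ * c₁ / (8 * C) / (Q⁻¹ * Q⁻¹ * L ^ 11) = c₄ * c₁ / (8 * C) * Q / L ^ 11 * Q by
      field_simp]
    have h0 : 0 ≤ c₄ * c₁ / (8 * C) * Q / L ^ 11 := by positivity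
    calc c₄ * c₁ / (8 * C) * Q / L ^ 11 * Q ≤ c₄ * c₁ / (8 * C) * Q / L ^ 11 * 1 :=
          mul_le_mul_of_nonneg_left hQ1 h0
      _ = c₄ * c₁ / (8 * C) * Q / L ^ 11 := mul_one _
  apply hfin
  -- the case of the inequality 3-4-1
  have hcase : ∀ η : ℝ, c₁ * Q / (2 * C * M ^ 2) ≤ η → η ≤ 1 → (χ ^ 2 ≠ 1 ∨ η ≤ |s.im|) →
      c₄ * c₁ / (8 * C) * Q / L ^ 11 ≤ ‖DS (cv χ) 0 s‖ := by
    intro η hη hη1 h
    have hη0 : 0 < η := lt_of_lt_of_le (by positivity) hη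
    refine le_trans ?_ (h4 q χ η s hq hχ hη0 hη1 hs hs2 h)
    have h5 : c₁ * Q / (8 * C * L ^ 2) ≤ c₁ * Q / (2 * C * M ^ 2) := by
      refine div_le_div_of_nonneg_left (by positivity) (by positivity) ?_
      nlinarith
    calc c₄ * c₁ / (8 * C) * Q / L ^ 11 = c₄ * (c₁ * Q / (8 * C * L ^ 2)) / L ^ 9 := by
          field_simp
      _ ≤ c₄ * η / L ^ 9 := by
          refine div_le_div_of_nonneg_right ?_ (by positivity)
          exact mul_le_mul_of_nonneg_left (h5.trans hη) hc₄.le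
  have hη1 : c₁ * Q / (2 * C * M ^ 2) ≤ 1 := by
    rw [div_le_one (by positivity)]
    have h6 : c₁ * Q ≤ 1 := mul_le_one₀ hc₁1 hQ0.le hQ1
    have h7 : 1 ≤ M ^ 2 := one_le_pow₀ hM1
    nlinarith
  by_cases hχ2 : χ ^ 2 = 1
  · rcases le_or_gt (c₁ * Q / (2 * C * M ^ 2)) |s.im| with h | h
    · exact hcase _ le_rfl hη1 (Or.inr h)
    · have h5 := h1 q χ (s.re - 1) hq hχ hχ2 (by linarith) (by linarith)
      have e : (1 : ℂ) + ((s.re - 1 : ℝ) : ℂ) = (s.re : ℂ) := by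
        push_cast
        ring
      rw [e] at h5
      have h6 := hD (cv χ) q 1 s (s.re : ℂ) hq1 zero_le_one
        (fun n => DirichletCharacter.norm_le_one χ _) (fun M => hCB q χ hq hχ M) hs
        (by linarith) (by simpa using hs) (by simpa using (by linarith : s.re ≤ 3))
        (h.le.trans hη1) (by simp)
      have h7 : ‖s - (s.re : ℂ)‖ = |s.im| := by
        have : s - (s.re : ℂ) = (s.im : ℂ) * I := by
          apply Complex.ext <;> simp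
        rw [this, norm_mul, norm_I, mul_one, norm_real, Real.norm_eq_abs]
      rw [h7] at h6
      have h8 : C * M ^ 2 * |s.im| ≤ c₁ * Q / 2 := by
        calc C * M ^ 2 * |s.im| ≤ C * M ^ 2 * (c₁ * Q / (2 * C * M ^ 2)) :=
              mul_le_mul_of_nonneg_left h.le (by positivity)
          _ = c₁ * Q / 2 := by
              field_simp
      have h9 : ‖DS (cv χ) 0 (s.re : ℂ)‖ ≤ ‖DS (cv χ) 0 s‖ +
          ‖DS (cv χ) 0 s - DS (cv χ) 0 (s.re : ℂ)‖ := by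
        have h10 := norm_sub_norm_le (DS (cv χ) 0 (s.re : ℂ)) (DS (cv χ) 0 s)
        rw [norm_sub_rev] at h10
        linarith
      have h11 : c₄ * c₁ / (8 * C) * Q / L ^ 11 ≤ c₁ * Q / 2 := by
        have h12 : 1 ≤ L ^ 11 := one_le_pow₀ hL1
        rw [div_le_iff₀ (by positivity)]
        have h13 : c₄ * c₁ / (8 * C) * Q ≤ c₁ * Q / 2 := by
          rw [show c₄ * c₁ / (8 * C) * Q = (c₁ * Q / 2) * (c₄ / (4 * C)) by
            field_simp; ring]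
          have h14 : c₄ / (4 * C) ≤ 1 := by
            rw [div_le_one (by positivity)]
            linarith
          calc c₁ * Q / 2 * (c₄ / (4 * C)) ≤ c₁ * Q / 2 * 1 :=
                mul_le_mul_of_nonneg_left h14 (by positivity)
            _ = c₁ * Q / 2 := mul_one _
        calc c₄ * c₁ / (8 * C) * Q ≤ c₁ * Q / 2 * 1 := by rw [mul_one]; exact h13
          _ ≤ c₁ * Q / 2 * L ^ 11 := mul_le_mul_of_nonneg_left h12 (by positivity)
      linarith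
  · exact hcase 1 hη1 le_rfl (Or.inl hχ2)

end Pool.Agent.H20.VT.LO
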