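import Pool.Agent.H47.VT.Targets5
import Pool.Agent.H20.BV.ML
import Pool.Agent.H71.BV.CB

/-!
T_M1: Mertens, nonprincipal characters.
-/

set_option autoImplicit false

open Complex Filter Topology Set
open scoped ArithmeticFunction.vonMangoldt

namespace Pool.Agent.H20.VT.M1

open Pool.Agent.H47.VT
open Pool.Agent.H30.BV (cv DS)

variable {q : ℕ}

lemma cv_zero {χ : DirichletCharacter ℂ q} (hq : 1 ≤ q) (h1 : χ ≠ 1) : cv χ 0 = 0 := by
  unfold cv
  apply MulChar.map_nonunit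
  intro hu
  have hq1 : q ≠ 1 := by
    rintro rfl
    exact h1 (Subsingleton.elim _ _)
  have : Fact (1 < q) := ⟨by omega⟩
  simp at hu

lemma cv_le (χ : DirichletCharacter ℂ q) (n : ℕ) : ‖cv χ n‖ ≤ 1 := DirichletCharacter.norm_le_one χ _

/-- partial sums of the character -/
noncomputable def F (χ : DirichletCharacter ℂ q) (N : ℕ) : ℂ := ∑ n ∈ Finset.range (N + 1), cv χ n

lemma F_le {χ : DirichletCharacter ℂ q} (hq : 1 ≤ q) (h1 : χ ≠ 1) (N : ℕ) : ‖F χ N‖ ≤ q :=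
  Pool.Agent.H71.BV.cb q χ hq h1 (N + 1)

/-- partial summation -/
lemma psum (χ : DirichletCharacter ℂ q) (hq : 1 ≤ q) (h1 : χ ≠ 1) (g : ℕ → ℂ) (N : ℕ) :
    ∑ n ∈ Finset.range N, cv χ (n + 1) * g (n + 1) =
      F χ N * g (N + 1) + ∑ n ∈ Finset.range N, F χ (n + 1) * (g (n + 1) - g (n + 2)) := by
  induction N with
  | zero => simp [F, cv_zero hq h1]
  | succ N ih =>
    rw [Finset.sum_range_succ, ih, Finset.sum_range_succ]
    have e : F χ (N + 1) = F χ N + cv χ (N + 1) := by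
      unfold F
      rw [Finset.sum_range_succ]
    rw [show N + 1 + 1 = N + 2 from rfl, e]
    ring

/-- antitone weights -/
lemma psum_le {χ : DirichletCharacter ℂ q} (hq : 1 ≤ q) (h1 : χ ≠ 1) (g : ℕ → ℂ) (G : ℕ → ℝ)
    (N : ℕ) (hG : ∀ n, 1 ≤ n → ‖g n - g (n + 1)‖ ≤ G n - G (n + 1))
    (hg : ∀ n, 1 ≤ n → ‖g n‖ ≤ G n) :
    ‖∑ n ∈ Finset.range N, cv χ (n + 1) * g (n + 1)‖ ≤ q * G 1 := by
  rw [psum χ hq h1]
  have h2 : ‖∑ n ∈ Finset.range N, F χ (n + 1) * (g (n + 1) - g (n + 2))‖ ≤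
      q * (G 1 - G (N + 1)) := by
    have h3 : ∀ M : ℕ, ‖∑ n ∈ Finset.range M, F χ (n + 1) * (g (n + 1) - g (n + 2))‖ ≤
        q * (G 1 - G (M + 1)) := by
      intro M
      induction M with
      | zero => simp
      | succ M ih =>
        rw [Finset.sum_range_succ]
        refine (norm_add_le _ _).trans ?_
        have h4 : ‖F χ (M + 1) * (g (M + 1) - g (M + 2))‖ ≤ q * (G (M + 1) - G (M + 2)) := by
          rw [norm_mul]
          exact mul_le_mul (F_le hq h1 _) (hG _ (by omega)) (norm_nonneg _) (Nat.cast_nonneg _)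
        rw [show M + 1 + 1 = M + 2 from rfl]
        linarith
    exact h3 N
  refine (norm_add_le _ _).trans ?_
  have h5 : ‖F χ N * g (N + 1)‖ ≤ q * G (N + 1) := by
    rw [norm_mul]
    exact mul_le_mul (F_le hq h1 _) (hg _ (by omega)) (norm_nonneg _) (Nat.cast_nonneg _)
  linarith

/-- the terms of the series after partial summation -/
noncomputable def tt (χ : DirichletCharacter ℂ q) (s : ℝ) (n : ℕ) : ℂ :=
  F χ (n + 1) * (((n + 1 : ℕ) : ℂ) ^ (-(s : ℂ)) - ((n + 2 : ℕ) : ℂ) ^ (-(s : ℂ)))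

lemma diff_le (s : ℝ) (hs : 1 ≤ s) (hs2 : s ≤ 2) (n : ℕ) :
    ‖((n + 1 : ℕ) : ℂ) ^ (-(s : ℂ)) - ((n + 2 : ℕ) : ℂ) ^ (-(s : ℂ))‖ ≤
      2 * (1 / ((n : ℝ) + 1) ^ 2) := by
  have hn1 : (0 : ℝ) < (n : ℝ) + 1 := by positivity
  have hn2 : (0 : ℝ) < (n : ℝ) + 2 := by positivity
  have e1 : ((n + 1 : ℕ) : ℂ) ^ (-(s : ℂ)) = (((n : ℝ) + 1) ^ (-s) : ℝ) := by
    rw [Complex.ofReal_cpow hn1.le]
    push_cast
    rfl
  have e2 : ((n + 2 : ℕ) : ℂ) ^ (-(s : ℂ)) = (((n : ℝ) + 2) ^ (-s) : ℝ) := by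
    rw [Complex.ofReal_cpow hn2.le]
    push_cast
    rfl
  rw [e1, e2, ← Complex.ofReal_sub, Complex.norm_real, Real.norm_eq_abs, abs_of_nonneg]
  · set r : ℝ := ((n : ℝ) + 1) / (n + 2) with hr
    have hr0 : 0 < r := by positivity
    have hr1 : r ≤ 1 := by
      rw [hr, div_le_one hn2]
      linarith
    have e3 : ((n : ℝ) + 2) ^ (-s) = ((n : ℝ) + 1) ^ (-s) * r ^ s := by
      rw [hr, Real.div_rpow hn1.le hn2.le, Real.rpow_neg hn1.le, Real.rpow_neg hn2.le]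
      have : ((n : ℝ) + 1) ^ s ≠ 0 := (Real.rpow_pos_of_pos hn1 _).ne'
      field_simp
    have h1 : r ^ (2 : ℝ) ≤ r ^ s := Real.rpow_le_rpow_of_exponent_ge hr0 hr1 hs2
    have h2 : ((n : ℝ) + 1) ^ (-s) ≤ ((n : ℝ) + 1) ^ (-1 : ℝ) :=
      Real.rpow_le_rpow_of_exponent_le (by linarith [Nat.cast_nonneg (α := ℝ) n]) (by linarith)
    have h3 : r ^ s ≤ 1 := Real.rpow_le_one hr0.le hr1 (by linarith)
    rw [e3]
    calc ((n : ℝ) + 1) ^ (-s) - ((n : ℝ) + 1) ^ (-s) * r ^ s =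
        ((n : ℝ) + 1) ^ (-s) * (1 - r ^ s) := by ring
      _ ≤ ((n : ℝ) + 1) ^ (-1 : ℝ) * (1 - r ^ (2 : ℝ)) :=
          mul_le_mul h2 (by linarith) (by linarith) (Real.rpow_nonneg hn1.le _)
      _ = ((n : ℝ) + 1)⁻¹ * (1 - r ^ 2) := by
          rw [Real.rpow_neg_one]
          norm_num
      _ ≤ 2 * (1 / ((n : ℝ) + 1) ^ 2) := by
          rw [hr, div_pow]
          rw [show ((n : ℝ) + 1)⁻¹ * (1 - ((n : ℝ) + 1) ^ 2 / (n + 2) ^ 2) =
            (2 * n + 3) / (((n : ℝ) + 1) * (n + 2) ^ 2) by field_simp; ring]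
          rw [mul_one_div, div_le_div_iff₀ (by positivity) (by positivity)]
          have hn : (0 : ℝ) ≤ n := Nat.cast_nonneg n
          nlinarith [mul_nonneg hn hn, mul_nonneg (mul_nonneg hn hn) hn]
  · rw [sub_nonneg]
    exact Real.rpow_le_rpow_of_nonpos hn1 (by linarith) (by linarith)

lemma bd_summable (q : ℕ) : Summable fun n : ℕ => (q : ℝ) * (2 * (1 / ((n : ℝ) + 1) ^ 2)) := by
  have h := (summable_nat_add_iff 1).2 (Real.summable_one_div_nat_pow.2 (one_lt_two (α := ℕ)))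
  refine ((h.mul_left 2).mul_left (q : ℝ)).congr fun n => ?_
  push_cast
  rfl

lemma tt_le {χ : DirichletCharacter ℂ q} (hq : 1 ≤ q) (h1 : χ ≠ 1) (s : ℝ) (hs : 1 ≤ s)
    (hs2 : s ≤ 2) (n : ℕ) : ‖tt χ s n‖ ≤ (q : ℝ) * (2 * (1 / ((n : ℝ) + 1) ^ 2)) := by
  unfold tt
  rw [norm_mul]
  exact mul_le_mul (F_le hq h1 _) (diff_le s hs hs2 n) (norm_nonneg _) (Nat.cast_nonneg _)

lemma tt_summable {χ : DirichletCharacter ℂ q} (hq : 1 ≤ q) (h1 : χ ≠ 1) (s : ℝ) (hs : 1 ≤ s)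
    (hs2 : s ≤ 2) : Summable (tt χ s) :=
  Summable.of_norm_bounded (bd_summable q) (tt_le hq h1 s hs hs2)

/-- the value of the series to the right of `1` -/
lemma lser {χ : DirichletCharacter ℂ q} (hq : 1 ≤ q) (h1 : χ ≠ 1) (s : ℝ) (hs : 1 < s)
    (hs2 : s ≤ 2) : LSeries (cv χ) s = ∑' n, tt χ s n := by
  have : NeZero q := ⟨by omega⟩
  have hS : LSeriesSummable (cv χ) (s : ℂ) :=
    DirichletCharacter.LSeriesSummable_of_one_lt_re χ (by simpa using hs)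
  have h2 := (hS.hasSum.tendsto_sum_nat).comp (tendsto_add_atTop_nat 1)
  have h3 := (tt_summable hq h1 s hs.le hs2).hasSum.tendsto_sum_nat
  have h4 : Tendsto (fun N : ℕ => F χ N * ((N + 1 : ℕ) : ℂ) ^ (-(s : ℂ))) atTop (𝓝 0) := by
    rw [tendsto_zero_iff_norm_tendsto_zero]
    have h5 : Tendsto (fun N : ℕ => (q : ℝ) * (((N + 1 : ℕ) : ℝ)) ^ (-s)) atTop (𝓝 ((q : ℝ) * 0)) := by
      refine Tendsto.const_mul _ ?_
      exact ((tendsto_rpow_neg_atTop (by linarith : 0 < s)).comp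
        tendsto_natCast_atTop_atTop).comp (tendsto_add_atTop_nat 1)
    rw [mul_zero] at h5
    refine squeeze_zero (fun _ => norm_nonneg _) (fun N => ?_) h5
    rw [norm_mul, Complex.norm_natCast_cpow_of_pos (by omega)]
    exact mul_le_mul (F_le hq h1 _) (by simp) (by positivity) (Nat.cast_nonneg _)
  have h6 := h4.add h3
  rw [zero_add] at h6
  refine tendsto_nhds_unique (h2.congr fun N => ?_) h6
  show ∑ n ∈ Finset.range (N + 1), LSeries.term (cv χ) s n = _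
  rw [Finset.sum_range_succ', LSeries.term_zero, add_zero]
  have h7 := psum χ hq h1 (fun n => (n : ℂ) ^ (-(s : ℂ))) N
  unfold tt
  push_cast at h7 ⊢
  rw [← h7]
  refine Finset.sum_congr rfl fun n _ => ?_
  rw [LSeries.term_of_ne_zero (by omega), Complex.cpow_neg, div_eq_mul_inv]
  push_cast
  rfl

lemma tt_one {χ : DirichletCharacter ℂ q} (hq : 1 ≤ q) (h1 : χ ≠ 1) :
    ∑' n, tt χ 1 n ≠ 0 := by
  have : NeZero q := ⟨by omega⟩
  have hL : Tendsto (fun s : ℝ => DirichletCharacter.LFunction χ (s : ℂ)) (𝓝[>] 1)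
      (𝓝 (DirichletCharacter.LFunction χ ((1 : ℝ) : ℂ))) :=
    (((DirichletCharacter.differentiable_LFunction h1).continuous.comp
      continuous_ofReal).tendsto 1).mono_left nhdsWithin_le_nhds
  have hev : ∀ᶠ s : ℝ in 𝓝[>] 1, 1 < s ∧ s ≤ 2 := by
    filter_upwards [Ioc_mem_nhdsGT (show (1 : ℝ) < 2 by norm_num)] with s hs
    exact hs
  have hT : Tendsto (fun s : ℝ => ∑' n, tt χ s n) (𝓝[>] 1) (𝓝 (∑' n, tt χ 1 n)) := by
    refine tendsto_tsum_of_dominated_convergence (bd_summable q) (fun n => ?_) ?_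
    · unfold tt
      refine Tendsto.const_mul _ ?_
      have hc : ∀ m : ℕ, 0 < m → Continuous fun s : ℝ => (m : ℂ) ^ (-(s : ℂ)) := by
        intro m hm
        have : (m : ℂ) ≠ 0 := Nat.cast_ne_zero.2 hm.ne'
        have h2 : Continuous fun s : ℝ => -(s : ℂ) := by fun_prop
        exact h2.const_cpow (Or.inl this)
      exact (((hc (n + 1) (by omega)).sub (hc (n + 2) (by omega))).tendsto 1).mono_left
        nhdsWithin_le_nhds
    · filter_upwards [hev] with s hs n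
      exact tt_le hq h1 s hs.1.le hs.2 n
  have hE : ∑' n, tt χ 1 n = DirichletCharacter.LFunction χ ((1 : ℝ) : ℂ) := by
    refine tendsto_nhds_unique hT (hL.congr' ?_)
    filter_upwards [hev] with s hs
    rw [DirichletCharacter.LFunction_eq_LSeries χ (by simpa using hs.1)]
    exact lser hq h1 s hs.1 hs.2
  rw [hE, ofReal_one]
  exact DirichletCharacter.LFunction_apply_one_ne_zero h1

/-! ### The partial sums at `1` -/

lemma tt_one_eq (χ : DirichletCharacter ℂ q) (n : ℕ) :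
    tt χ 1 n = F χ (n + 1) * (((n + 1 : ℕ) : ℂ)⁻¹ - ((n + 2 : ℕ) : ℂ)⁻¹) := by
  unfold tt
  rw [ofReal_one, Complex.cpow_neg_one, Complex.cpow_neg_one]

lemma tt_one_le {χ : DirichletCharacter ℂ q} (hq : 1 ≤ q) (h1 : χ ≠ 1) (n : ℕ) :
    ‖tt χ 1 n‖ ≤ q * (1 / ((n : ℝ) + 1) - 1 / ((n : ℝ) + 2)) := by
  rw [tt_one_eq, norm_mul]
  refine mul_le_mul (F_le hq h1 _) ?_ (norm_nonneg _) (Nat.cast_nonneg _)
  have e : ((n + 1 : ℕ) : ℂ)⁻¹ - ((n + 2 : ℕ) : ℂ)⁻¹ =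
      ((1 / ((n : ℝ) + 1) - 1 / ((n : ℝ) + 2) : ℝ) : ℂ) := by
    push_cast
    rw [one_div, one_div]
  rw [e, norm_real, Real.norm_eq_abs, abs_of_nonneg]
  rw [sub_nonneg]
  exact one_div_le_one_div_of_le (by positivity) (by linarith)

lemma tail {χ : DirichletCharacter ℂ q} (hq : 1 ≤ q) (h1 : χ ≠ 1) (N : ℕ) :
    ‖(∑' n, tt χ 1 n) - ∑ n ∈ Finset.range N, tt χ 1 n‖ ≤ q * (1 / ((N : ℝ) + 1)) := by
  have h2 := (tt_summable hq h1 1 le_rfl one_le_two).hasSum.tendsto_sum_nat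
  have h3 : ∀ k : ℕ, ‖∑ n ∈ Finset.range (N + k), tt χ 1 n - ∑ n ∈ Finset.range N, tt χ 1 n‖ ≤
      q * (1 / ((N : ℝ) + 1) - 1 / ((N : ℝ) + k + 1)) := by
    intro k
    induction k with
    | zero => simp
    | succ k ih =>
      rw [← add_assoc, Finset.sum_range_succ]
      have h4 := tt_one_le hq h1 (N + k)
      push_cast at h4 ⊢
      calc ‖∑ n ∈ Finset.range (N + k), tt χ 1 n + tt χ 1 (N + k) -
            ∑ n ∈ Finset.range N, tt χ 1 n‖ =
            ‖(∑ n ∈ Finset.range (N + k), tt χ 1 n - ∑ n ∈ Finset.range N, tt χ 1 n) +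
              tt χ 1 (N + k)‖ := by
              congr 1
              ring
        _ ≤ q * (1 / ((N : ℝ) + 1) - 1 / ((N : ℝ) + k + 1)) +
            q * (1 / ((N : ℝ) + k + 1) - 1 / ((N : ℝ) + k + 2)) :=
              (norm_add_le _ _).trans (add_le_add ih h4)
        _ = q * (1 / ((N : ℝ) + 1) - 1 / ((N : ℝ) + (k + 1) + 1)) := by
              rw [show (N : ℝ) + (k + 1) + 1 = (N : ℝ) + k + 2 by ring]
              ring
  have h5 : Tendsto (fun k : ℕ => ∑ n ∈ Finset.range (N + k), tt χ 1 n) atTop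
      (𝓝 (∑' n, tt χ 1 n)) := by
    have h6 := h2.comp (tendsto_add_atTop_nat N)
    refine h6.congr fun k => ?_
    show ∑ n ∈ Finset.range (k + N), tt χ 1 n = _
    rw [add_comm k N]
  refine le_of_tendsto ((h5.sub_const _).norm) (Eventually.of_forall fun k => ?_)
  refine (h3 k).trans (mul_le_mul_of_nonneg_left ?_ (Nat.cast_nonneg _))
  have : 0 ≤ 1 / ((N : ℝ) + k + 1) := by positivity
  linarith

lemma ioc_range {M : Type} [AddCommMonoid M] (a : ℕ → M) (N : ℕ) :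
    ∑ n ∈ Finset.Ioc 0 N, a n = ∑ n ∈ Finset.range N, a (n + 1) := by
  rw [Finset.range_eq_Ico, Finset.sum_Ico_add' (fun n => a n) 0 N 1]
  rfl

lemma A_le {χ : DirichletCharacter ℂ q} (hq : 1 ≤ q) (h1 : χ ≠ 1) (N : ℕ) :
    ‖∑ n ∈ Finset.Ioc 0 N, cv χ n / n - ∑' n, tt χ 1 n‖ ≤ 2 * q * (1 / ((N : ℝ) + 1)) := by
  rw [ioc_range]
  have h2 := psum χ hq h1 (fun n => (n : ℂ)⁻¹) N
  simp only [← div_eq_mul_inv] at h2
  rw [h2]
  have h3 : ∑ n ∈ Finset.range N, F χ (n + 1) * (((n + 1 : ℕ) : ℂ)⁻¹ - ((n + 2 : ℕ) : ℂ)⁻¹) =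
      ∑ n ∈ Finset.range N, tt χ 1 n := Finset.sum_congr rfl fun n _ => (tt_one_eq χ n).symm
  rw [h3]
  have h4 := tail hq h1 N
  have h5 : ‖F χ N / ((N + 1 : ℕ) : ℂ)‖ ≤ q * (1 / ((N : ℝ) + 1)) := by
    rw [norm_div, Complex.norm_natCast, mul_one_div]
    push_cast
    exact div_le_div_of_nonneg_right (F_le hq h1 _) (by positivity)
  calc ‖F χ N / ((N + 1 : ℕ) : ℂ) + ∑ n ∈ Finset.range N, tt χ 1 n - ∑' n, tt χ 1 n‖ =
      ‖F χ N / ((N + 1 : ℕ) : ℂ) - (∑' n, tt χ 1 n - ∑ n ∈ Finset.range N, tt χ 1 n)‖ := by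
        congr 1
        ring
    _ ≤ q * (1 / ((N : ℝ) + 1)) + q * (1 / ((N : ℝ) + 1)) :=
        (norm_sub_le _ _).trans (add_le_add h5 h4)
    _ = 2 * q * (1 / ((N : ℝ) + 1)) := by ring

/-! ### The logarithm -/

lemma log_diff (n : ℕ) (hn : 1 ≤ n) :
    |Real.log n / n - Real.log (n + 1) / (n + 1)| ≤
      (Real.log n + 3) / n - (Real.log (n + 1) + 3) / (n + 1) := by
  have hn0 : (0 : ℝ) < n := by exact_mod_cast hn
  have hn1 : (0 : ℝ) < (n : ℝ) + 1 := by positivity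
  have hl : 0 ≤ Real.log n := Real.log_natCast_nonneg n
  have h1 : Real.log (n + 1) - Real.log n ≤ 1 / n := by
    rw [← Real.log_div hn1.ne' hn0.ne']
    have h2 := Real.log_le_sub_one_of_pos (show 0 < ((n : ℝ) + 1) / n by positivity)
    refine h2.trans (le_of_eq ?_)
    field_simp
    ring
  have h2 : n * (Real.log (n + 1) - Real.log n) ≤ 1 := by
    have h3 := mul_le_mul_of_nonneg_left h1 hn0.le
    rwa [mul_one_div_cancel hn0.ne'] at h3
  have e : (Real.log n + 3) / n - (Real.log (n + 1) + 3) / (n + 1) =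
      (Real.log n / n - Real.log (n + 1) / (n + 1)) + 3 / (n * (n + 1)) := by
    field_simp
    ring
  have e2 : Real.log n / n - Real.log (n + 1) / (n + 1) =
      (Real.log n - n * (Real.log (n + 1) - Real.log n)) / (n * (n + 1)) := by
    field_simp
    ring
  have h3 : -1 / ((n : ℝ) * (n + 1)) ≤ Real.log n / n - Real.log (n + 1) / (n + 1) := by
    rw [e2]
    exact div_le_div_of_nonneg_right (by linarith) (by positivity)
  have h4 : 0 < 1 / ((n : ℝ) * (n + 1)) := by positivity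
  have e3 : -1 / ((n : ℝ) * (n + 1)) = -(1 / ((n : ℝ) * (n + 1))) := by ring
  have e4 : 3 / ((n : ℝ) * (n + 1)) = 3 * (1 / ((n : ℝ) * (n + 1))) := by ring
  rw [e3] at h3
  rw [e, e4, abs_le]
  constructor <;> linarith

lemma S1_le {χ : DirichletCharacter ℂ q} (hq : 1 ≤ q) (h1 : χ ≠ 1) (N : ℕ) :
    ‖∑ n ∈ Finset.Ioc 0 N, cv χ n * ((Real.log n / n : ℝ) : ℂ)‖ ≤ q * 3 := by
  rw [ioc_range]
  refine (psum_le hq h1 (fun n => ((Real.log n / n : ℝ) : ℂ)) (fun n => (Real.log n + 3) / n) N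
    (fun n hn => ?_) (fun n hn => ?_)).trans (le_of_eq (by simp))
  · rw [← ofReal_sub, norm_real, Real.norm_eq_abs]
    push_cast
    exact log_diff n hn
  · have hn0 : (0 : ℝ) < n := by exact_mod_cast hn
    have hl : 0 ≤ Real.log n := Real.log_natCast_nonneg n
    rw [norm_real, Real.norm_eq_abs, abs_of_nonneg (by positivity)]
    exact div_le_div_of_nonneg_right (by linarith) hn0.le

/-! ### The convolution -/

/-- the coefficients `Λ(n) χ(n) / n` -/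
noncomputable def f1 (χ : DirichletCharacter ℂ q) : ArithmeticFunction ℂ :=
  ⟨fun n => (Λ n : ℂ) * cv χ n / n, by simp⟩

/-- the coefficients `χ(n) / n` -/
noncomputable def g1 (χ : DirichletCharacter ℂ q) : ArithmeticFunction ℂ :=
  ⟨fun n => cv χ n / n, by simp⟩

lemma conv (χ : DirichletCharacter ℂ q) (n : ℕ) (hn : 0 < n) :
    (f1 χ * g1 χ) n = cv χ n * ((Real.log n / n : ℝ) : ℂ) := by
  rw [ArithmeticFunction.mul_apply]
  have h1 : ∀ x ∈ n.divisorsAntidiagonal, f1 χ x.1 * g1 χ x.2 = cv χ n / n * (Λ x.1 : ℂ) := by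
    intro x hx
    have h2 := (Nat.mem_divisorsAntidiagonal.1 hx).1
    simp only [f1, g1, ArithmeticFunction.coe_mk]
    have h3 : cv χ n = cv χ x.1 * cv χ x.2 := by
      unfold cv
      rw [← h2, Nat.cast_mul, map_mul]
    have h4 : (n : ℂ) = (x.1 : ℂ) * x.2 := by
      rw [← h2, Nat.cast_mul]
    rw [h3, h4]
    ring
  rw [Finset.sum_congr rfl h1, ← Finset.mul_sum,
    Nat.sum_divisorsAntidiagonal (f := fun i _ => (Λ i : ℂ)), ← ofReal_sum,
    ArithmeticFunction.vonMangoldt_sum]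
  push_cast
  ring

lemma main_le {χ : DirichletCharacter ℂ q} (hq : 1 ≤ q) (h1 : χ ≠ 1) (N : ℕ) :
    ‖∑' n, tt χ 1 n‖ * ‖∑ n ∈ Finset.Ioc 0 N, f1 χ n‖ ≤ 15 * q := by
  rcases Nat.eq_zero_or_pos N with h0 | hN
  · rw [h0]
    simp
  have hN0 : (0 : ℝ) < N := by exact_mod_cast hN
  have h2 : ∑ n ∈ Finset.Ioc 0 N, cv χ n * ((Real.log n / n : ℝ) : ℂ) =
      ∑ d ∈ Finset.Ioc 0 N, f1 χ d * ∑ m ∈ Finset.Ioc 0 (N / d), g1 χ m := by
    rw [← ArithmeticFunction.sum_Ioc_mul_eq_sum_sum]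
    exact Finset.sum_congr rfl fun n hn => (conv χ n (Finset.mem_Ioc.1 hn).1).symm
  have h3 : ‖∑ d ∈ Finset.Ioc 0 N, f1 χ d * (∑ m ∈ Finset.Ioc 0 (N / d), g1 χ m -
      ∑' n, tt χ 1 n)‖ ≤ 12 * q := by
    calc ‖∑ d ∈ Finset.Ioc 0 N, f1 χ d * (∑ m ∈ Finset.Ioc 0 (N / d), g1 χ m -
        ∑' n, tt χ 1 n)‖ ≤ ∑ d ∈ Finset.Ioc 0 N, 2 * q / N * Λ d := by
          refine (norm_sum_le _ _).trans (Finset.sum_le_sum fun d hd => ?_)
          obtain ⟨hd0, hdN⟩ := Finset.mem_Ioc.1 hd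
          have hd1 : (0 : ℝ) < d := by exact_mod_cast hd0
          rw [norm_mul]
          have h4 : ‖f1 χ d‖ ≤ Λ d / d := by
            simp only [f1, ArithmeticFunction.coe_mk]
            rw [norm_div, norm_mul, norm_real, Real.norm_eq_abs,
              abs_of_nonneg ArithmeticFunction.vonMangoldt_nonneg, Complex.norm_natCast]
            refine div_le_div_of_nonneg_right ?_ hd1.le
            calc Λ d * ‖cv χ d‖ ≤ Λ d * 1 :=
                mul_le_mul_of_nonneg_left (cv_le χ d) ArithmeticFunction.vonMangoldt_nonneg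
              _ = Λ d := mul_one _
          have h5 := A_le hq h1 (N / d)
          have h6 : 1 / (((N / d : ℕ) : ℝ) + 1) ≤ d / N := by
            rw [div_le_div_iff₀ (by positivity) hN0, one_mul]
            have h7 : (N : ℝ) / d < ((N / d : ℕ) : ℝ) + 1 := by
              have := Nat.lt_floor_add_one ((N : ℝ) / d)
              rwa [Nat.floor_div_eq_div] at this
            rw [div_lt_iff₀ hd1] at h7
            linarith
          calc ‖f1 χ d‖ * ‖∑ m ∈ Finset.Ioc 0 (N / d), g1 χ m - ∑' n, tt χ 1 n‖ ≤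
              (Λ d / d) * (2 * q * (d / N)) := by
                refine mul_le_mul h4 (h5.trans ?_) (norm_nonneg _)
                  (div_nonneg ArithmeticFunction.vonMangoldt_nonneg hd1.le)
                exact mul_le_mul_of_nonneg_left h6 (by positivity)
            _ = 2 * q / N * Λ d := by
                field_simp
      _ = 2 * q / N * ∑ d ∈ Finset.Ioc 0 N, Λ d := by rw [Finset.mul_sum]
      _ ≤ 2 * q / N * (6 * N) := by
          refine mul_le_mul_of_nonneg_left ?_ (by positivity)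
          have h8 := Pool.Agent.H22.MR.psi_bound N hN0.le
          rw [Nat.floor_natCast] at h8
          exact h8
      _ = 12 * q := by
          field_simp
          ring
  have h9 : ∑ d ∈ Finset.Ioc 0 N, f1 χ d * (∑ m ∈ Finset.Ioc 0 (N / d), g1 χ m -
      ∑' n, tt χ 1 n) = ∑ n ∈ Finset.Ioc 0 N, cv χ n * ((Real.log n / n : ℝ) : ℂ) -
        (∑ d ∈ Finset.Ioc 0 N, f1 χ d) * ∑' n, tt χ 1 n := by
    rw [h2, Finset.sum_mul, ← Finset.sum_sub_distrib]
    exact Finset.sum_congr rfl fun d _ => by ring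
  rw [h9] at h3
  have h10 := S1_le hq h1 N
  rw [← norm_mul, mul_comm]
  calc ‖(∑ n ∈ Finset.Ioc 0 N, f1 χ n) * ∑' n, tt χ 1 n‖ =
      ‖∑ n ∈ Finset.Ioc 0 N, cv χ n * ((Real.log n / n : ℝ) : ℂ) -
        (∑ n ∈ Finset.Ioc 0 N, cv χ n * ((Real.log n / n : ℝ) : ℂ) -
        (∑ d ∈ Finset.Ioc 0 N, f1 χ d) * ∑' n, tt χ 1 n)‖ := by
        congr 1
        ring
    _ ≤ q * 3 + 12 * q := (norm_sub_le _ _).trans (add_le_add h10 h3)
    _ = 15 * q := by ring

theorem pf_M1 : T_M1 := by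
  intro q χ hq h1
  obtain ⟨C, hC, hnp⟩ := Pool.Agent.H20.BV.nonprime_bound'
  have hL : 0 < ‖∑' n, tt χ 1 n‖ := norm_pos_iff.2 (tt_one hq h1)
  refine ⟨15 * q / ‖∑' n, tt χ 1 n‖ + C, fun N => ?_⟩
  have h2 : ‖∑ n ∈ Finset.Ioc 0 N, f1 χ n‖ ≤ 15 * q / ‖∑' n, tt χ 1 n‖ := by
    rw [le_div_iff₀ hL, mul_comm]
    exact main_le hq h1 N
  have h3 := Finset.sum_filter_add_sum_filter_not (Finset.Icc 1 N) Nat.Prime
    (fun d => f1 χ d)
  have h4 : ∑ p ∈ (Finset.Icc 1 N).filter Nat.Prime, cv χ p * ((Real.log p / p : ℝ) : ℂ) =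
      ∑ p ∈ (Finset.Icc 1 N).filter Nat.Prime, f1 χ p := by
    refine Finset.sum_congr rfl fun p hp => ?_
    simp only [f1, ArithmeticFunction.coe_mk]
    rw [ArithmeticFunction.vonMangoldt_apply_prime (Finset.mem_filter.1 hp).2]
    push_cast
    ring
  have h5 : ‖∑ n ∈ (Finset.Icc 1 N).filter (fun n => ¬ n.Prime), f1 χ n‖ ≤ C := by
    refine (norm_sum_le _ _).trans ((Finset.sum_le_sum fun n _ => ?_).trans (hnp (Finset.Icc 1 N)))
    simp only [f1, ArithmeticFunction.coe_mk]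
    rw [norm_div, norm_mul, norm_real, Real.norm_eq_abs,
      abs_of_nonneg ArithmeticFunction.vonMangoldt_nonneg, Complex.norm_natCast]
    refine div_le_div_of_nonneg_right ?_ (Nat.cast_nonneg n)
    calc Λ n * ‖cv χ n‖ ≤ Λ n * 1 :=
        mul_le_mul_of_nonneg_left (cv_le χ n) ArithmeticFunction.vonMangoldt_nonneg
      _ = Λ n := mul_one _
  have h6 : ∑ n ∈ Finset.Ioc 0 N, f1 χ n = ∑ n ∈ Finset.Icc 1 N, f1 χ n := rfl
  rw [h6] at h2
  rw [h4]
  calc ‖∑ p ∈ (Finset.Icc 1 N).filter Nat.Prime, f1 χ p‖ =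
      ‖∑ n ∈ Finset.Icc 1 N, f1 χ n -
        ∑ n ∈ (Finset.Icc 1 N).filter (fun n => ¬ n.Prime), f1 χ n‖ := by
        rw [← h3]
        congr 1
        ring
    _ ≤ 15 * q / ‖∑' n, tt χ 1 n‖ + C := (norm_sub_le _ _).trans (add_le_add h2 h5)

end Pool.Agent.H20.VT.M1
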